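import Mathlib

/-!
Core estimate for group-invariant consistent path systems.
`K g` = number of edges of the chosen path from `1` to `g`, `v g t` = its `t`-th vertex.
-/

namespace Pool.Agent.Helper94.PS

open Finset

structure Core {G : Type} [Group G] (K : G → ℕ) (v : G → ℕ → G) : Prop where
  h0 : ∀ g, v g 0 = 1
  hK : ∀ g, v g (K g) = g
  inj : ∀ g i j, i ≤ K g → j ≤ K g → v g i = v g j → i = j
  fwd : ∀ g i j, i ≤ j → j ≤ K g → K ((v g i)⁻¹ * v g j) = j - i ∧
    ∀ t, t ≤ j - i → v ((v g i)⁻¹ * v g j) t = (v g i)⁻¹ * v g (i + t)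
  bwd : ∀ g i j, i ≤ j → j ≤ K g → K ((v g j)⁻¹ * v g i) = j - i ∧
    ∀ t, t ≤ j - i → v ((v g j)⁻¹ * v g i) t = (v g j)⁻¹ * v g (j - t)

variable {G : Type} [Group G] {K : G → ℕ} {v : G → ℕ → G}

/-- The unordered pair of neighbours of the `m`-th vertex, relative to it. -/
def corner (v : G → ℕ → G) (g : G) (m : ℕ) : Sym2 G :=
  s((v g m)⁻¹ * v g (m - 1), (v g m)⁻¹ * v g (m + 1))

open Classical in
/-- number of interior vertices with a given corner -/
noncomputable def cnt (K : G → ℕ) (v : G → ℕ → G) (g : G) (κ : Sym2 G) : ℕ :=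
  ((Ico 1 (K g)).filter (fun m => corner v g m = κ)).card

/-- backward type coincidence -/
def DT (v : G → ℕ → G) (g : G) (m : ℕ) (h : G) (j : ℕ) : Prop :=
  2 ≤ j ∧ (v h j)⁻¹ * v h (j - 1) = (v g (m + 1))⁻¹ * v g m ∧
    (v h j)⁻¹ * v h (j - 2) = (v g (m + 1))⁻¹ * v g (m - 1)

/-- forward type coincidence -/
def AT (K : G → ℕ) (v : G → ℕ → G) (g : G) (m : ℕ) (h : G) (j : ℕ) : Prop :=
  j + 2 ≤ K h ∧ (v h j)⁻¹ * v h (j + 1) = (v g (m + 1))⁻¹ * v g m ∧
    (v h j)⁻¹ * v h (j + 2) = (v g (m + 1))⁻¹ * v g (m - 1)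

theorem DT_corner {g h : G} {m j : ℕ} (h2 : DT v g m h j) :
    corner v h (j - 1) = corner v g m ∧
      (v h (j - 1))⁻¹ * v h j = (v g m)⁻¹ * v g (m + 1) := by
  obtain ⟨hj, h1, h2⟩ := h2
  obtain ⟨j, rfl⟩ : ∃ i, j = i + 2 := ⟨j - 2, by omega⟩
  have e1 : j + 2 - 1 = j + 1 := by omega
  have e2 : j + 2 - 2 = j := by omega
  have e3 : j + 1 - 1 = j := by omega
  rw [e1] at h1 ⊢
  rw [e2] at h2
  have key : (v h (j + 1))⁻¹ * v h (j + 2) = (v g m)⁻¹ * v g (m + 1) := by
    have := congrArg (·⁻¹) h1
    simpa using this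
  have key2 : (v h (j + 1))⁻¹ * v h j = (v g m)⁻¹ * v g (m - 1) := by
    have : (v h (j + 1))⁻¹ * v h j
        = ((v h (j + 2))⁻¹ * v h (j + 1))⁻¹ * ((v h (j + 2))⁻¹ * v h j) := by group
    rw [this, h1, h2]; group
  refine ⟨?_, key⟩
  unfold corner
  rw [e3, show j + 1 + 1 = j + 2 from rfl, key, key2]

theorem AT_corner {g h : G} {m j : ℕ} (h2 : AT K v g m h j) :
    corner v h (j + 1) = corner v g m ∧
      (v h (j + 1))⁻¹ * v h j = (v g m)⁻¹ * v g (m + 1) := by
  obtain ⟨hj, h1, h2⟩ := h2
  have key : (v h (j + 1))⁻¹ * v h j = (v g m)⁻¹ * v g (m + 1) := by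
    have := congrArg (·⁻¹) h1
    simpa using this
  have key2 : (v h (j + 1))⁻¹ * v h (j + 2) = (v g m)⁻¹ * v g (m - 1) := by
    have : (v h (j + 1))⁻¹ * v h (j + 2)
        = ((v h j)⁻¹ * v h (j + 1))⁻¹ * ((v h j)⁻¹ * v h (j + 2)) := by group
    rw [this, h1, h2]; group
  refine ⟨?_, key⟩
  unfold corner
  rw [show j + 1 - 1 = j by omega, show j + 1 + 1 = j + 2 from rfl, key, key2, Sym2.eq_swap]

open Classical in
/-- positions of the second path not matching the corner `m` of the first -/
noncomputable def good (K : G → ℕ) (v : G → ℕ → G) (g : G) (m : ℕ) (h : G) : Finset ℕ :=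
  (range (K h + 1)).filter (fun j => ¬ (DT v g m h j ∨ AT K v g m h j))

theorem card_good (C : Core K v) (g : G) (m : ℕ) (h : G) :
    K h + 1 - cnt K v h (corner v g m) ≤ (good K v g m h).card := by
  classical
  have hsplit := Finset.card_filter_add_card_filter_not (s := range (K h + 1))
    (fun j => DT v g m h j ∨ AT K v g m h j)
  have hbad : ((range (K h + 1)).filter (fun j => DT v g m h j ∨ AT K v g m h j)).card
      ≤ cnt K v h (corner v g m) := by
    unfold cnt
    refine Finset.card_le_card_of_injOn (fun j => if DT v g m h j then j - 1 else j + 1) ?_ ?_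
    · intro j hj
      simp only [Finset.coe_filter, Finset.mem_range, Set.mem_ofPred_eq] at hj
      simp only [Finset.coe_filter, Finset.mem_Ico, Set.mem_ofPred_eq]
      by_cases hD : DT v g m h j
      · rw [if_pos hD]
        have := hD.1
        exact ⟨⟨by omega, by omega⟩, (DT_corner hD).1⟩
      · rw [if_neg hD]
        have hA := hj.2.resolve_left hD
        have := hA.1
        exact ⟨⟨by omega, by omega⟩, (AT_corner hA).1⟩
    · intro j hj j' hj' he
      simp only [Finset.coe_filter, Finset.mem_range, Set.mem_ofPred_eq] at hj hj'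
      -- auxiliary contradiction
      have aux : ∀ a b, a < K h + 1 → b < K h + 1 → DT v g m h a → AT K v g m h b →
          a - 1 = b + 1 → False := by
        intro a b ha hb hD hA hab
        have h1 := (DT_corner hD).2
        have h2 := (AT_corner hA).2
        have ha2 := hD.1
        obtain rfl : a = b + 2 := by omega
        rw [show b + 2 - 1 = b + 1 by omega] at h1
        have h3 : v h (b + 2) = v h b := by
          have := h1.trans h2.symm
          exact mul_left_cancel this
        have := C.inj h (b + 2) b (by omega) (by omega) h3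
        omega
      by_cases hD : DT v g m h j <;> by_cases hD' : DT v g m h j'
      · simp only [hD, hD', if_true] at he
        have := hD.1
        have := hD'.1
        omega
      · simp only [hD, hD', if_true, if_false] at he
        exact (aux j j' hj.1 hj'.1 hD (hj'.2.resolve_left hD') he).elim
      · simp only [hD, hD', if_true, if_false] at he
        exact (aux j' j hj'.1 hj.1 hD' (hj.2.resolve_left hD) he.symm).elim
      · simp only [hD, hD', if_false] at he
        omega
  unfold good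
  rw [Finset.card_range] at hsplit
  omega

/-- the main coincidence lemma -/
theorem coincide (C : Core K v) {g h : G} {m m' j j' : ℕ} (hm : m < K g) (hm' : m' + 2 ≤ m)
    (hj : j ≤ K h) (hj' : j' ≤ K h)
    (he : v g (m + 1) * (v h j)⁻¹ = v g (m' + 1) * (v h j')⁻¹) :
    DT v g m h j ∨ AT K v g m h j := by
  have e0 : (v g (m' + 1))⁻¹ * v g (m + 1) = (v h j')⁻¹ * v h j := by
    have : v g (m + 1) = v g (m' + 1) * (v h j')⁻¹ * v h j := by
      rw [← he]; group
    rw [this]; group
  obtain ⟨k1, f1⟩ := C.fwd g (m' + 1) (m + 1) (by omega) (by omega)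
  have i1 := f1 (m - m' - 1) (by omega)
  have i2 := f1 (m - m' - 2) (by omega)
  rw [show m' + 1 + (m - m' - 1) = m by omega] at i1
  rw [show m' + 1 + (m - m' - 2) = m - 1 by omega] at i2
  rw [e0] at i1 i2 k1
  rcases le_total j' j with hjj | hjj
  · obtain ⟨k2, f2⟩ := C.fwd h j' j hjj hj
    left
    have j1 := f2 (m - m' - 1) (by omega)
    have j2 := f2 (m - m' - 2) (by omega)
    rw [show j' + (m - m' - 1) = j - 1 by omega] at j1
    rw [show j' + (m - m' - 2) = j - 2 by omega] at j2
    refine ⟨by omega, ?_, ?_⟩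
    · have : (v h j)⁻¹ * v h (j - 1) = ((v h j')⁻¹ * v h j)⁻¹ * ((v h j')⁻¹ * v h (j - 1)) := by
        group
      rw [this, ← j1, i1, ← e0]; group
    · have : (v h j)⁻¹ * v h (j - 2) = ((v h j')⁻¹ * v h j)⁻¹ * ((v h j')⁻¹ * v h (j - 2)) := by
        group
      rw [this, ← j2, i2, ← e0]; group
  · obtain ⟨k2, f2⟩ := C.bwd h j j' hjj hj'
    right
    have j1 := f2 (m - m' - 1) (by omega)
    have j2 := f2 (m - m' - 2) (by omega)
    rw [show j' - (m - m' - 1) = j + 1 by omega] at j1
    rw [show j' - (m - m' - 2) = j + 2 by omega] at j2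
    refine ⟨by omega, ?_, ?_⟩
    · have : (v h j)⁻¹ * v h (j + 1) = ((v h j')⁻¹ * v h j)⁻¹ * ((v h j')⁻¹ * v h (j + 1)) := by
        group
      rw [this, ← j1, i1, ← e0]; group
    · have : (v h j)⁻¹ * v h (j + 2) = ((v h j')⁻¹ * v h j)⁻¹ * ((v h j')⁻¹ * v h (j + 2)) := by
        group
      rw [this, ← j2, i2, ← e0]; group

theorem star [Fintype G] (C : Core K v) (g h : G) (I : Finset ℕ) (hI : ∀ m ∈ I, m < K g)
    (hsep : ∀ m ∈ I, ∀ m' ∈ I, m' < m → m' + 2 ≤ m) :
    ∑ m ∈ I, (K h + 1 - cnt K v h (corner v g m)) ≤ Fintype.card G := by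
  classical
  calc ∑ m ∈ I, (K h + 1 - cnt K v h (corner v g m))
      ≤ ∑ m ∈ I, (good K v g m h).card := Finset.sum_le_sum (fun m _ => card_good C g m h)
    _ = (I.sigma (fun m => good K v g m h)).card := (Finset.card_sigma _ _).symm
    _ ≤ (Finset.univ : Finset G).card := by
        refine Finset.card_le_card_of_injOn (fun x => v g (x.1 + 1) * (v h x.2)⁻¹)
          (fun _ _ => Finset.mem_coe.2 (Finset.mem_univ _)) ?_
        rintro ⟨m, j⟩ h1 ⟨m', j'⟩ h2 he
        simp only [Finset.coe_sigma, Set.mem_sigma_iff, Finset.mem_coe, good, Finset.mem_filter,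
          Finset.mem_range] at h1 h2
        obtain ⟨hm, hj, hjg⟩ := h1
        obtain ⟨hm', hj', hjg'⟩ := h2
        simp only at he
        rcases lt_trichotomy m m' with hlt | heq | hlt
        · exact (hjg' (coincide C (hI _ hm') (hsep _ hm' _ hm hlt) (by omega) (by omega)
            he.symm)).elim
        · subst heq
          have h3 : v h j = v h j' := by
            have := mul_left_cancel he
            exact inv_injective this
          have := C.inj h j j' (by omega) (by omega) h3
          subst this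
          rfl
        · exact (hjg (coincide C (hI _ hm) (hsep _ hm _ hm' hlt) (by omega) (by omega)
            he)).elim
    _ = Fintype.card G := Finset.card_univ

end Pool.Agent.Helper94.PS
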