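import Mathlib
import Pool.Agent.Helper94.PS.Core

namespace Pool.Agent.Helper94.PS

open Finset

variable {G : Type} [Group G] {K : G → ℕ} {v : G → ℕ → G}

/-- `g` is a product of `k` factors from the pair `κ` -/
def Rep (κ : Sym2 G) (k : ℕ) (g : G) : Prop :=
  ∃ l : List G, (∀ z ∈ l, z ∈ κ) ∧ l.length = k ∧ l.prod = g

theorem Rep.mul {κ : Sym2 G} {k k' : ℕ} {g g' : G} (h : Rep κ k g) (h' : Rep κ k' g') :
    Rep κ (k + k') (g * g') := by
  obtain ⟨l, h1, h2, h3⟩ := h
  obtain ⟨l', h1', h2', h3'⟩ := h'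
  refine ⟨l ++ l', ?_, by simp [h2, h2'], by simp [h3, h3']⟩
  intro z hz
  rcases List.mem_append.1 hz with hz | hz
  · exact h1 z hz
  · exact h1' z hz

theorem Rep.zero (κ : Sym2 G) : Rep κ 0 (1 : G) := ⟨[], by simp, rfl, rfl⟩

theorem Rep.one {κ : Sym2 G} {z : G} (hz : z ∈ κ) : Rep κ 1 z :=
  ⟨[z], by simpa using hz, rfl, by simp⟩

theorem Rep.inv {κ : Sym2 G} (hinv : ∀ z ∈ κ, z⁻¹ ∈ κ) {k : ℕ} {g : G} (h : Rep κ k g) :
    Rep κ k g⁻¹ := by
  obtain ⟨l, h1, h2, h3⟩ := h
  refine ⟨(l.map (·⁻¹)).reverse, ?_, by simp [h2], ?_⟩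
  · intro z hz
    rw [List.mem_reverse, List.mem_map] at hz
    obtain ⟨y, hy, rfl⟩ := hz
    exact hinv y (h1 y hy)
  · rw [← h3, List.prod_inv_reverse]

theorem Rep.succ_split {κ : Sym2 G} {k : ℕ} {g : G} (h : Rep κ (k + 1) g) :
    ∃ g' z, Rep κ k g' ∧ z ∈ κ ∧ g = g' * z := by
  obtain ⟨l, h1, h2, h3⟩ := h
  have hne : l ≠ [] := by
    intro h0
    rw [h0] at h2
    simp at h2
  have hsp := List.dropLast_append_getLast hne
  refine ⟨l.dropLast.prod, l.getLast hne, ⟨l.dropLast, ?_, ?_, rfl⟩, ?_, ?_⟩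
  · intro z hz
    exact h1 z (List.mem_of_mem_dropLast hz)
  · rw [List.length_dropLast]; omega
  · exact h1 _ (List.getLast_mem hne)
  · rw [← h3]
    conv_lhs => rw [← hsp]
    simp

theorem dd_ex (κ : Sym2 G) (n : ℕ) (g : G) : ∃ k, Rep κ k g ∨ k = n + 1 := ⟨n + 1, Or.inr rfl⟩

open Classical in
/-- truncated word length -/
noncomputable def dd (κ : Sym2 G) (n : ℕ) (g : G) : ℕ := Nat.find (dd_ex κ n g)

theorem dd_le (κ : Sym2 G) (n : ℕ) (g : G) : dd κ n g ≤ n + 1 := by
  classical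
  exact Nat.find_min' _ (Or.inr rfl)

theorem dd_le_of_rep {κ : Sym2 G} {n k : ℕ} {g : G} (h : Rep κ k g) : dd κ n g ≤ k := by
  classical
  exact Nat.find_min' _ (Or.inl h)

theorem rep_dd {κ : Sym2 G} {n : ℕ} {g : G} (h : dd κ n g < n + 1) : Rep κ (dd κ n g) g := by
  classical
  have := Nat.find_spec (dd_ex κ n g)
  rcases this with h1 | h1
  · exact h1
  · exact absurd h1 (by unfold dd at h; omega)

theorem dd_eq_zero_iff {κ : Sym2 G} {n : ℕ} {g : G} : dd κ n g = 0 ↔ g = 1 := by
  constructor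
  · intro h
    have h1 := rep_dd (κ := κ) (n := n) (g := g) (by omega)
    rw [h] at h1
    obtain ⟨l, -, h2, h3⟩ := h1
    rw [List.length_eq_zero_iff] at h2
    rw [← h3, h2]; rfl
  · rintro rfl
    have := dd_le_of_rep (n := n) (Rep.zero κ)
    omega

theorem dd_mul_le (κ : Sym2 G) (n : ℕ) (g h : G) : dd κ n (g * h) ≤ dd κ n g + dd κ n h := by
  by_cases hg : dd κ n g < n + 1
  · by_cases hh : dd κ n h < n + 1
    · exact dd_le_of_rep ((rep_dd hg).mul (rep_dd hh))
    · have := dd_le κ n (g * h)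
      omega
  · have := dd_le κ n (g * h)
    omega

theorem dd_inv_le {κ : Sym2 G} (hinv : ∀ z ∈ κ, z⁻¹ ∈ κ) (n : ℕ) (g : G) :
    dd κ n g⁻¹ ≤ dd κ n g := by
  by_cases hg : dd κ n g < n + 1
  · exact dd_le_of_rep ((rep_dd hg).inv hinv)
  · have := dd_le κ n g⁻¹
    omega

theorem dd_inv {κ : Sym2 G} (hinv : ∀ z ∈ κ, z⁻¹ ∈ κ) (n : ℕ) (g : G) :
    dd κ n g⁻¹ = dd κ n g := by
  apply le_antisymm (dd_inv_le hinv n g)
  have := dd_inv_le hinv n g⁻¹
  rwa [inv_inv] at this

/-- a window of class `κ` of radius `n` around `m` on the path of `g` -/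
structure Win (K : G → ℕ) (v : G → ℕ → G) (κ : Sym2 G) (n : ℕ) (g : G) (m : ℕ) : Prop where
  lo : n < m
  hi : m + n < K g
  cls : ∀ t, t ≤ n → corner v g (m + t) = κ ∧ corner v g (m - t) = κ

theorem Win.mem_up {κ : Sym2 G} {n : ℕ} {g : G} {m : ℕ} (W : Win K v κ n g m) {t : ℕ}
    (ht : t ≤ n) : (v g (m + t))⁻¹ * v g (m + t + 1) ∈ κ := by
  rw [← (W.cls t ht).1]; exact Sym2.mem_mk_right _ _

theorem Win.mem_down {κ : Sym2 G} {n : ℕ} {g : G} {m : ℕ} (W : Win K v κ n g m) {t : ℕ}
    (ht : t ≤ n) : (v g (m - t))⁻¹ * v g (m - (t + 1)) ∈ κ := by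
  rw [← (W.cls t ht).2]
  rw [show m - (t + 1) = m - t - 1 by omega]
  exact Sym2.mem_mk_left _ _

theorem Win.rep_up {κ : Sym2 G} {n : ℕ} {g : G} {m : ℕ} (W : Win K v κ n g m) :
    ∀ k, k ≤ n + 1 → Rep κ k ((v g m)⁻¹ * v g (m + k)) := by
  intro k
  induction k with
  | zero => intro _; simpa using Rep.zero κ
  | succ k ih =>
    intro hk
    have h1 := (ih (by omega)).mul (Rep.one (W.mem_up (t := k) (by omega)))
    have h2 : (v g m)⁻¹ * v g (m + k) * ((v g (m + k))⁻¹ * v g (m + k + 1))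
        = (v g m)⁻¹ * v g (m + (k + 1)) := by
      rw [show m + (k + 1) = m + k + 1 by omega]; group
    rwa [h2] at h1

theorem Win.rep_down {κ : Sym2 G} {n : ℕ} {g : G} {m : ℕ} (W : Win K v κ n g m) :
    ∀ k, k ≤ n + 1 → Rep κ k ((v g m)⁻¹ * v g (m - k)) := by
  intro k
  induction k with
  | zero => intro _; simpa using Rep.zero κ
  | succ k ih =>
    intro hk
    have h1 := (ih (by omega)).mul (Rep.one (W.mem_down (t := k) (by omega)))
    have h2 : (v g m)⁻¹ * v g (m - k) * ((v g (m - k))⁻¹ * v g (m - (k + 1)))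
        = (v g m)⁻¹ * v g (m - (k + 1)) := by
      group
    rwa [h2] at h1

theorem Win.inv {κ : Sym2 G} {n : ℕ} {g : G} {m : ℕ} (W : Win K v κ n g m) (hn : 1 ≤ n) :
    ∀ z ∈ κ, z⁻¹ ∈ κ := by
  intro z hz
  have h0 := (W.cls 0 (by omega)).1
  have h1 := (W.cls 1 hn).1
  have h2 := (W.cls 1 hn).2
  have hlo := W.lo
  rw [Nat.add_zero] at h0
  rw [← h0] at hz
  rcases Sym2.mem_iff.1 hz with h | h
  · rw [← h2, h]
    apply Sym2.mem_iff.2
    right
    rw [show m - 1 + 1 = m by omega]; group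
  · rw [← h1, h]
    apply Sym2.mem_iff.2
    left
    rw [show m + 1 - 1 = m by omega]; group

theorem Win.geod {κ : Sym2 G} {n : ℕ} {g0 : G} {m : ℕ} (W : Win K v κ n g0 m) :
    ∀ k, k ≤ n → ∀ g, dd κ n g = k →
      g = (v g0 m)⁻¹ * v g0 (m + k) ∨ g = (v g0 m)⁻¹ * v g0 (m - k) := by
  intro k
  induction k with
  | zero =>
    intro _ g hg
    left
    rw [dd_eq_zero_iff.1 hg]; simp
  | succ k ih =>
    intro hk g hg
    have hr := rep_dd (κ := κ) (n := n) (g := g) (by omega)
    rw [hg] at hr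
    obtain ⟨g', z, hr', hz, rfl⟩ := hr.succ_split
    have hd1 : dd κ n g' ≤ k := dd_le_of_rep hr'
    have hd2 : dd κ n (g' * z) ≤ dd κ n g' + 1 := by
      refine (dd_mul_le κ n g' z).trans ?_
      have := dd_le_of_rep (n := n) (Rep.one hz)
      omega
    have hd : dd κ n g' = k := by omega
    have hlo := W.lo
    rcases ih (by omega) g' hd with h | h
    · rw [← (W.cls k (by omega)).1] at hz
      rcases Sym2.mem_iff.1 hz with hz | hz
      · rcases Nat.eq_zero_or_pos k with h0 | h0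
        · subst h0
          right
          rw [h, hz]; simp
        · exfalso
          have h1 : g' * z = (v g0 m)⁻¹ * v g0 (m + (k - 1)) := by
            rw [h, hz, show m + (k - 1) = m + k - 1 by omega]; group
          have h2 := dd_le_of_rep (n := n) (W.rep_up (k - 1) (by omega))
          rw [← h1] at h2
          omega
      · left
        rw [h, hz, show m + (k + 1) = m + k + 1 by omega]; group
    · rw [← (W.cls k (by omega)).2] at hz
      rcases Sym2.mem_iff.1 hz with hz | hz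
      · right
        rw [h, hz, show m - (k + 1) = m - k - 1 by omega]; group
      · rcases Nat.eq_zero_or_pos k with h0 | h0
        · subst h0
          left
          rw [h, hz]; simp
        · exfalso
          have h1 : g' * z = (v g0 m)⁻¹ * v g0 (m - (k - 1)) := by
            rw [h, hz, show m - (k - 1) = m - k + 1 by omega]; group
          have h2 := dd_le_of_rep (n := n) (W.rep_down (k - 1) (by omega))
          rw [← h1] at h2
          omega

/-- total length of the chosen path to `g` -/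
noncomputable def tot (K : G → ℕ) (v : G → ℕ → G) (d : G → ℕ) (g : G) : ℕ :=
  ∑ t ∈ range (K g), d ((v g t)⁻¹ * v g (t + 1))

theorem tot_small (C : Core K v) {κ : Sym2 G} {n : ℕ} {g0 : G} {m : ℕ} (W : Win K v κ n g0 m)
    (g : G) (hg : dd κ n g ≤ n) : tot K v (dd κ n) g ≤ dd κ n g := by
  have hlo := W.lo
  have hhi := W.hi
  obtain ⟨k, hk⟩ : ∃ k, dd κ n g = k := ⟨_, rfl⟩
  rw [hk] at hg ⊢
  rcases W.geod k hg g hk with h | h
  · obtain ⟨h1, h2⟩ := C.fwd g0 m (m + k) (by omega) (by omega)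
    rw [← h] at h1 h2
    unfold tot
    calc ∑ t ∈ range (K g), dd κ n ((v g t)⁻¹ * v g (t + 1))
        ≤ ∑ t ∈ range (K g), 1 := by
          apply Finset.sum_le_sum
          intro t ht
          rw [Finset.mem_range] at ht
          rw [h2 t (by omega), h2 (t + 1) (by omega)]
          have : ((v g0 m)⁻¹ * v g0 (m + t))⁻¹ * ((v g0 m)⁻¹ * v g0 (m + (t + 1)))
              = (v g0 (m + t))⁻¹ * v g0 (m + t + 1) := by
            rw [show m + (t + 1) = m + t + 1 by omega]; group
          rw [this]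
          exact dd_le_of_rep (Rep.one (W.mem_up (by omega)))
      _ = K g := by simp
      _ ≤ k := by omega
  · obtain ⟨h1, h2⟩ := C.bwd g0 (m - k) m (by omega) (by omega)
    rw [← h] at h1 h2
    unfold tot
    calc ∑ t ∈ range (K g), dd κ n ((v g t)⁻¹ * v g (t + 1))
        ≤ ∑ t ∈ range (K g), 1 := by
          apply Finset.sum_le_sum
          intro t ht
          rw [Finset.mem_range] at ht
          rw [h2 t (by omega), h2 (t + 1) (by omega)]
          have : ((v g0 m)⁻¹ * v g0 (m - t))⁻¹ * ((v g0 m)⁻¹ * v g0 (m - (t + 1)))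
              = (v g0 (m - t))⁻¹ * v g0 (m - (t + 1)) := by
            group
          rw [this]
          exact dd_le_of_rep (Rep.one (W.mem_down (by omega)))
      _ = K g := by simp
      _ ≤ k := by omega

theorem cnt_le (g : G) (κ : Sym2 G) : cnt K v g κ ≤ K g - 1 := by
  classical
  unfold cnt
  refine (Finset.card_filter_le _ _).trans ?_
  simp

theorem tot_gen (κ : Sym2 G) (n : ℕ) (g : G) :
    tot K v (dd κ n) g ≤ K g + (n + 1) * (K g - cnt K v g κ) := by
  classical
  have hc : ((range (K g)).filter (fun t => ¬ (1 ≤ t ∧ corner v g t = κ))).card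
      = K g - cnt K v g κ := by
    have hs := Finset.card_filter_add_card_filter_not (s := range (K g))
      (fun t => 1 ≤ t ∧ corner v g t = κ)
    have h2 : ((range (K g)).filter (fun t => 1 ≤ t ∧ corner v g t = κ)).card
        = cnt K v g κ := by
      unfold cnt
      congr 1
      ext t
      simp only [Finset.mem_filter, Finset.mem_range, Finset.mem_Ico]
      tauto
    rw [Finset.card_range] at hs
    omega
  rw [← hc]
  unfold tot
  calc ∑ t ∈ range (K g), dd κ n ((v g t)⁻¹ * v g (t + 1))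
      ≤ ∑ t ∈ range (K g), (1 + if ¬ (1 ≤ t ∧ corner v g t = κ) then n + 1 else 0) := by
        apply Finset.sum_le_sum
        intro t _
        by_cases h : 1 ≤ t ∧ corner v g t = κ
        · rw [if_neg (by tauto)]
          apply dd_le_of_rep
          apply Rep.one
          rw [← h.2]
          exact Sym2.mem_mk_right _ _
        · rw [if_pos h]
          have := dd_le κ n ((v g t)⁻¹ * v g (t + 1))
          omega
    _ = K g + (n + 1) * _ := by
        rw [Finset.sum_add_distrib, ← Finset.sum_filter, Finset.sum_const, Finset.sum_const]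
        simp [mul_comm]

end Pool.Agent.Helper94.PS
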