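import Mathlib
import Pool.Agent.Helper94.PS.Bound

namespace Pool.Agent.Helper94.PS

open Finset

variable {G : Type} [Group G] {K : G → ℕ} {v : G → ℕ → G}

/-- `κ` most frequent corner of the longest path -/
theorem claim_one [Fintype G] (C : Core K v) (g : G) (n1 : ℕ)
    (hn1 : ∀ m ∈ Ico 1 (K g), cnt K v g (corner v g m) ≤ n1) :
    (K g / 2) * (K g + 1 - n1) ≤ Fintype.card G := by
  classical
  have h := star C g g ((Ico 1 (K g)).filter (fun m => m % 2 = 1))
    (fun m hm => by
      rw [Finset.mem_filter, Finset.mem_Ico] at hm; exact hm.1.2)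
    (fun m hm m' hm' hlt => by
      rw [Finset.mem_filter, Finset.mem_Ico] at hm hm'
      omega)
  have hcard : ((Ico 1 (K g)).filter (fun m => m % 2 = 1)).card = K g / 2 := by
    have : (Ico 1 (K g)).filter (fun m => m % 2 = 1)
        = (range (K g / 2)).image (fun t => 2 * t + 1) := by
      ext m
      simp only [Finset.mem_filter, Finset.mem_Ico, Finset.mem_image, Finset.mem_range]
      constructor
      · rintro ⟨⟨h1, h2⟩, h3⟩
        exact ⟨m / 2, by omega, by omega⟩
      · rintro ⟨t, ht, rfl⟩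
        omega
    rw [this, Finset.card_image_of_injective _ (by intro a b hab; simpa using hab),
      Finset.card_range]
  calc (K g / 2) * (K g + 1 - n1)
      = ∑ m ∈ (Ico 1 (K g)).filter (fun m => m % 2 = 1), (K g + 1 - n1) := by
        rw [Finset.sum_const, hcard, smul_eq_mul]
    _ ≤ ∑ m ∈ (Ico 1 (K g)).filter (fun m => m % 2 = 1),
          (K g + 1 - cnt K v g (corner v g m)) := by
        apply Finset.sum_le_sum
        intro m hm
        have := hn1 m (Finset.mem_filter.1 hm).1
        omega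
    _ ≤ _ := h

theorem claim_two [Fintype G] (C : Core K v) (g h : G) (κ : Sym2 G) :
    cnt K v g κ * (K h + 1 - cnt K v h κ) ≤ 2 * Fintype.card G := by
  classical
  have key : ∀ r : ℕ, (((Ico 1 (K g)).filter (fun m => corner v g m = κ)).filter
      (fun m => m % 2 = r)).card * (K h + 1 - cnt K v h κ) ≤ Fintype.card G := by
    intro r
    have hs := star C g h (((Ico 1 (K g)).filter (fun m => corner v g m = κ)).filter
      (fun m => m % 2 = r))
      (fun m hm => by
        rw [Finset.mem_filter, Finset.mem_filter, Finset.mem_Ico] at hm; exact hm.1.1.2)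
      (fun m hm m' hm' hlt => by
        rw [Finset.mem_filter, Finset.mem_filter, Finset.mem_Ico] at hm hm'
        omega)
    refine le_trans (le_of_eq ?_) hs
    rw [Finset.sum_congr rfl (g := fun _ => K h + 1 - cnt K v h κ)]
    · rw [Finset.sum_const, smul_eq_mul]
    · intro m hm
      rw [(Finset.mem_filter.1 (Finset.mem_filter.1 hm).1).2]
  have h0 := key 0
  have h1 := key 1
  have hsum : cnt K v g κ = (((Ico 1 (K g)).filter (fun m => corner v g m = κ)).filter
      (fun m => m % 2 = 0)).card + (((Ico 1 (K g)).filter (fun m => corner v g m = κ)).filter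
      (fun m => m % 2 = 1)).card := by
    have := Finset.card_filter_add_card_filter_not
      (s := (Ico 1 (K g)).filter (fun m => corner v g m = κ)) (fun m => m % 2 = 0)
    unfold cnt
    rw [← this]
    congr 2
    ext m
    simp only [Finset.mem_filter]
    constructor
    · rintro ⟨a, b⟩; exact ⟨a, by omega⟩
    · rintro ⟨a, b⟩; exact ⟨a, by omega⟩
  rw [hsum, add_mul]
  omega

theorem claim_three (g : G) (κ : Sym2 G) (b1 n : ℕ) (hb : b1 + cnt K v g κ = K g)
    (hn : b1 * (2 * n + 1) + 1 ≤ K g) (hb1 : 1 ≤ b1) : ∃ m, Win K v κ n g m := by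
  classical
  by_contra hno
  push Not at hno
  -- each window has a bad vertex
  have hw : ∀ w ∈ range b1, ∃ m, 1 + w * (2 * n + 1) ≤ m ∧ m < 1 + (w + 1) * (2 * n + 1) ∧
      corner v g m ≠ κ := by
    intro w hw
    rw [Finset.mem_range] at hw
    by_contra hcon
    push Not at hcon
    have hle : (w + 1) * (2 * n + 1) ≤ b1 * (2 * n + 1) := Nat.mul_le_mul_right _ hw
    have hexp : (w + 1) * (2 * n + 1) = w * (2 * n + 1) + (2 * n + 1) := by ring
    apply hno (1 + w * (2 * n + 1) + n)
    refine ⟨by omega, by omega, ?_⟩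
    intro t ht
    exact ⟨hcon _ (by omega) (by omega), hcon _ (by omega) (by omega)⟩
  choose! f hf1 hf2 hf3 using hw
  have hbad : ((Ico 1 (K g)).filter (fun m => ¬ corner v g m = κ)).card = b1 - 1 := by
    have hs := Finset.card_filter_add_card_filter_not (s := Ico 1 (K g))
      (fun m => corner v g m = κ)
    rw [Nat.card_Ico] at hs
    have : ((Ico 1 (K g)).filter (fun m => corner v g m = κ)).card = cnt K v g κ := by
      unfold cnt; rfl
    omega
  have hinj : (range b1).card ≤ ((Ico 1 (K g)).filter (fun m => ¬ corner v g m = κ)).card := by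
    refine Finset.card_le_card_of_injOn f ?_ ?_
    · intro w hw
      have hw' : w ∈ range b1 := hw
      have hw2 := Finset.mem_range.1 hw'
      have hle : (w + 1) * (2 * n + 1) ≤ b1 * (2 * n + 1) := Nat.mul_le_mul_right _ hw2
      have a1 := hf1 w hw'
      have a2 := hf2 w hw'
      rw [Finset.mem_coe, Finset.mem_filter, Finset.mem_Ico]
      exact ⟨⟨by omega, by omega⟩, hf3 w hw'⟩
    · intro w hw w' hw' he
      have a1 := hf1 w hw
      have a2 := hf2 w hw
      have b1' := hf1 w' hw'
      have b2 := hf2 w' hw'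
      by_contra hne
      rcases Nat.lt_or_gt_of_ne hne with hlt | hlt
      · have : (w + 1) * (2 * n + 1) ≤ w' * (2 * n + 1) := Nat.mul_le_mul_right _ hlt
        omega
      · have : (w' + 1) * (2 * n + 1) ≤ w * (2 * n + 1) := Nat.mul_le_mul_right _ hlt
        omega
  rw [Finset.card_range, hbad] at hinj
  omega

/-- existence of a good left invariant metric -/
theorem exists_length [Fintype G] (C : Core K v) :
    ∃ d : G → ℕ, (∀ g, d g = 0 ↔ g = 1) ∧ (∀ g, d g⁻¹ = d g) ∧
      (∀ g h, d (g * h) ≤ d g + d h) ∧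
      ∀ g, (tot K v d g : ℝ) ≤ 10 * Real.sqrt (Fintype.card G) * d g := by
  classical
  obtain ⟨g0, -, hmax⟩ := Finset.exists_max_image (Finset.univ : Finset G) K
    ⟨1, Finset.mem_univ _⟩
  have hmax' : ∀ g, K g ≤ K g0 := fun g => hmax g (Finset.mem_univ _)
  set s : ℝ := Real.sqrt (Fintype.card G) with hs
  have hN1 : (1 : ℝ) ≤ Fintype.card G := by
    exact_mod_cast Fintype.card_pos
  have hs2 : s * s = Fintype.card G := Real.mul_self_sqrt (by linarith)
  have hs1 : 1 ≤ s := by
    rw [hs]; exact Real.one_le_sqrt.2 hN1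
  have hK1 : K 1 = 0 := C.inj 1 (K 1) 0 le_rfl (Nat.zero_le _) (by rw [C.hK, C.h0])
  by_cases hcase : (K g0 : ℝ) < 10 * s
  · -- discrete metric
    refine ⟨fun g => if g = 1 then 0 else 1, ?_, ?_, ?_, ?_⟩
    · intro g
      by_cases h : g = 1 <;> simp [h]
    · intro g
      simp only [inv_eq_one]
    · intro g h
      by_cases h1 : g = 1
      · subst h1; simp
      · simp only [h1, if_false]
        split_ifs <;> omega
    · intro g
      by_cases h1 : g = 1
      · subst h1
        simp [tot, hK1]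
      · simp only [h1, if_false]
        have : tot K v (fun g => if g = 1 then 0 else 1) g ≤ K g := by
          unfold tot
          calc _ ≤ ∑ t ∈ range (K g), 1 := by
                apply Finset.sum_le_sum
                intro t _
                dsimp only
                split_ifs <;> omega
            _ = K g := by simp
        have h2 : (tot K v (fun g => if g = 1 then 0 else 1) g : ℝ) ≤ K g0 := by
          exact_mod_cast this.trans (hmax' g)
        simp only [Nat.cast_one, mul_one]
        linarith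
  · push Not at hcase
    -- most frequent corner
    have hM10 : 10 ≤ K g0 := by
      have : (10 : ℝ) ≤ K g0 := by linarith
      exact_mod_cast this
    obtain ⟨m0, hm0, hm0max⟩ := Finset.exists_max_image (Ico 1 (K g0))
      (fun m => cnt K v g0 (corner v g0 m)) ⟨1, by rw [Finset.mem_Ico]; omega⟩
    set κ := corner v g0 m0 with hκ
    set n1 := cnt K v g0 κ with hn1
    have hn1le : n1 ≤ K g0 - 1 := cnt_le g0 κ
    obtain ⟨b1, hb1⟩ : ∃ b1, b1 + n1 = K g0 := ⟨K g0 - n1, by omega⟩
    have hb1pos : 1 ≤ b1 := by omega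
    have c1 := claim_one C g0 n1 (fun m hm => hm0max m hm)
    have c2 := fun h => claim_two C g0 h κ
    rw [show K g0 + 1 - n1 = b1 + 1 by omega] at c1
    have c1r : ((K g0 : ℝ) - 1) * (b1 + 1) ≤ 2 * (s * s) := by
      rw [hs2]
      have e1 : (K g0 - 1) * (b1 + 1) ≤ 2 * ((K g0 / 2) * (b1 + 1)) := by
        rw [← mul_assoc]
        apply Nat.mul_le_mul_right
        omega
      have e2 : (K g0 - 1) * (b1 + 1) ≤ 2 * Fintype.card G := by omega
      have e3 : (((K g0 - 1 : ℕ) : ℝ)) * (b1 + 1) ≤ 2 * Fintype.card G := by exact_mod_cast e2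
      rw [Nat.cast_sub (by omega)] at e3
      simpa using e3
    have hb1r : (b1 : ℝ) ≤ 2 / 9 * s := by
      have h9 : 9 * s ≤ (K g0 : ℝ) - 1 := by linarith
      have hb0 : (0 : ℝ) ≤ b1 := Nat.cast_nonneg _
      have : 9 * s * b1 ≤ 2 * (s * s) := by nlinarith
      have h3 : s * (9 * b1) ≤ s * (2 * s) := by nlinarith
      have h4 := le_of_mul_le_mul_left h3 (by linarith)
      linarith
    have hb1K : 40 * b1 ≤ K g0 := by
      have : (40 : ℝ) * b1 ≤ K g0 := by linarith
      exact_mod_cast this
    -- choose radius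
    obtain ⟨n, hn1', hn2, hn3⟩ : ∃ n, 1 ≤ n ∧ b1 * (2 * n + 1) + 1 ≤ K g0 ∧
        K g0 ≤ 3 * (b1 * (n + 1)) := by
      set Q := (K g0 - 1) / b1 with hQ
      have q1 : b1 * Q ≤ K g0 - 1 := Nat.mul_div_le _ _
      have q2 : K g0 - 1 < b1 * (Q + 1) := Nat.lt_mul_div_succ _ hb1pos
      have q3 : 10 ≤ Q := by
        rw [hQ, Nat.le_div_iff_mul_le hb1pos]
        omega
      refine ⟨(Q - 1) / 2, by omega, ?_, ?_⟩
      · have : b1 * (2 * ((Q - 1) / 2) + 1) ≤ b1 * Q := Nat.mul_le_mul_left _ (by omega)
        omega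
      · have : b1 * (Q + 1) ≤ b1 * (3 * ((Q - 1) / 2 + 1)) := Nat.mul_le_mul_left _ (by omega)
        have e : b1 * (3 * ((Q - 1) / 2 + 1)) = 3 * (b1 * ((Q - 1) / 2 + 1)) := by ring
        omega
    obtain ⟨m, W⟩ := claim_three g0 κ b1 n hb1 hn2 hb1pos
    have hinv := W.inv hn1'
    refine ⟨dd κ n, fun g => dd_eq_zero_iff, fun g => dd_inv hinv n g, dd_mul_le κ n, ?_⟩
    intro g
    by_cases hg : dd κ n g ≤ n
    · have h1 : (tot K v (dd κ n) g : ℝ) ≤ dd κ n g := by exact_mod_cast tot_small C W g hg
      have h2 : (0 : ℝ) ≤ dd κ n g := Nat.cast_nonneg _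
      nlinarith
    · have hge : dd κ n g = n + 1 := by
        have := dd_le κ n g
        omega
      rw [hge]
      have h1 := tot_gen (K := K) (v := v) κ n g
      obtain ⟨c, hc⟩ : ∃ c, c = K g - cnt K v g κ := ⟨_, rfl⟩
      rw [← hc] at h1
      have h2 := c2 g
      have hcl := cnt_le (K := K) (v := v) g κ
      rw [← hn1, show K g + 1 - cnt K v g κ = c + 1 by omega] at h2
      have h2r : (n1 : ℝ) * (c + 1) ≤ 2 * (s * s) := by
        rw [hs2]; exact_mod_cast h2
      have hn1r : 9 * s ≤ n1 := by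
        have : (b1 : ℝ) + n1 = K g0 := by exact_mod_cast hb1
        linarith
      have hc0 : (0 : ℝ) ≤ c := Nat.cast_nonneg _
      have hcr : (c : ℝ) ≤ 2 / 9 * s := by
        have : 9 * s * c ≤ 2 * (s * s) := by nlinarith
        have h3 : s * (9 * c) ≤ s * (2 * s) := by nlinarith
        have h4 := le_of_mul_le_mul_left h3 (by linarith)
        linarith
      have h3 : (tot K v (dd κ n) g : ℝ) ≤ K g0 + (n + 1) * c := by
        have := hmax' g
        have h4 : tot K v (dd κ n) g ≤ K g0 + (n + 1) * c := by omega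
        exact_mod_cast h4
      have hn3r : (K g0 : ℝ) ≤ 3 * (b1 * (n + 1)) := by exact_mod_cast hn3
      have hn0 : (0 : ℝ) < n + 1 := by positivity
      have h5 : (b1 : ℝ) * (n + 1) ≤ 2 / 9 * s * (n + 1) :=
        mul_le_mul_of_nonneg_right hb1r hn0.le
      have h6 : ((n : ℝ) + 1) * c ≤ (n + 1) * (2 / 9 * s) :=
        mul_le_mul_of_nonneg_left hcr hn0.le
      push_cast
      nlinarith [mul_pos hn0 (by linarith : (0 : ℝ) < s)]

end Pool.Agent.Helper94.PS
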